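import Pool.Agent.R898.BStmt

/-!
# Bloch–Beilinson filtrations for a single variety, and chains of self-correspondences: definitions
-/

open CategoryTheory CategoryTheory.Limits AlgebraicGeometry
open Pool.Agent.H914 Pool.Agent.H914.VarClass Pool.Agent.H914.VarClass.Obj
open Pool.Agent.R903 Pool.Agent.R898.B

universe u v w

namespace Pool.Agent.R904.BB

variable {k : Type u} [Field k] {𝒱 : VarClass k} {C : ChowTheory.{u, v} 𝒱}
  {W : WeilTheory.{u, v, w} C}

/-- `F j k = F^k CH^j(X)`, for the single variety `X`, satisfies the conditions 1 to 4 of the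
problem, where the conditions 3 and 4 are only required for the self-correspondences of `X` (of all
degrees). -/
structure IsBBOne (A : AJMap W) (X : 𝒱.Obj) (F : ℕ → ℕ → Submodule ℚ (C.CH X)) : Prop where
  descends : ∀ j, Descends (C.gr X j) j (F j)
  kernels : ∀ j, Kernels (F j) (W.cl X) (A.aj X j)
  compat : ∀ (i j l : ℕ) (Γ : C.CH (X.prod X)), j + l = i + X.dim → Γ ∈ C.gr (X.prod X) l →
    Compat (C.act Γ) (W.act Γ) (W.gr X) j (F j) (F i)

/-- The classes `x ∈ CH^j(X)` of level `k`: the homologically trivial classes have level `1`, the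
classes in the kernel of the Abel–Jacobi map have level `2`, and if `x ∈ CH^i(X)` has level `k` and
the self-correspondence `Γ` of `X`, which maps `CH^i(X)` to `CH^j(X)`, acts as zero on
`H^(2i - k)(X)`, then `Γ_* x ∈ CH^j(X)` has level `k + 1`. -/
inductive Chain (A : AJMap W) (X : 𝒱.Obj) : ℕ → ℕ → C.CH X → Prop
  | hom (j : ℕ) (x : C.CH X) (hx : x ∈ C.gr X j) (hcl : W.cl X x = 0) : Chain A X 1 j x
  | ker (j : ℕ) (x : C.CH X) (hx : x ∈ C.gr X j) (hcl : W.cl X x = 0) (haj : A.aj X j x = 0) :
      Chain A X 2 j x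
  | step (k i j l m : ℕ) (x : C.CH X) (Γ : C.CH (X.prod X)) (h : Chain A X k i x)
      (hΓ : Γ ∈ C.gr (X.prod X) l) (hl : i + l = j + X.dim) (hm : m + k = 2 * i)
      (h0 : ∀ b ∈ W.gr X m, W.act Γ b = 0) : Chain A X (k + 1) j (C.act Γ x)

end Pool.Agent.R904.BB
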