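import Pool.Agent.R904.BB.Defs
import Pool.Agent.R903.Lef

/-!
# Bloch–Beilinson filtrations can be tested on one variety at a time
-/

open CategoryTheory CategoryTheory.Limits AlgebraicGeometry
open Pool.Agent.H914 Pool.Agent.H914.VarClass Pool.Agent.H914.VarClass.Obj
open Pool.Agent.R903 Pool.Agent.R898.B

universe u v w

namespace Pool.Agent.R904.BB

variable {k : Type u} [Field k] {𝒱 : VarClass k} {C : ChowTheory.{u, v} 𝒱}
  {W : WeilTheory.{u, v, w} C} {A : AJMap W} {X Y Z V N : 𝒱.Obj}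

lemma aj_zero {i j l : ℕ} {Γ : C.CH (X.prod Y)} (hΓ : Γ ∈ C.gr (X.prod Y) l)
    (hl : i + l = j + X.dim) {x : C.CH X} (hx : x ∈ C.gr X i) (hcl : W.cl X x = 0)
    (haj : A.aj X i x = 0) : A.aj Y j (C.act Γ x) = 0 := by
  obtain ⟨S, h1, -⟩ := A.functorial X Y j i l Γ hl hΓ
  rw [h1 x hx hcl, haj, map_zero]

lemma aj_zero' {i j l m : ℕ} {Γ : C.CH (X.prod Y)} (hΓ : Γ ∈ C.gr (X.prod Y) l)
    (hl : i + l = j + X.dim) {x : C.CH X} (hx : x ∈ C.gr X i) (hcl : W.cl X x = 0)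
    (hm : m + 1 = 2 * i) (h0 : ∀ b ∈ W.gr X m, W.act Γ b = 0) : A.aj Y j (C.act Γ x) = 0 := by
  obtain ⟨S, h1, h2⟩ := A.functorial X Y j i l Γ hl hΓ
  rw [h1 x hx hcl, h2 m hm h0, LinearMap.zero_apply]

lemma cl_zero (Γ : C.CH (X.prod Y)) {x : C.CH X} (hcl : W.cl X x = 0) :
    W.cl Y (C.act Γ x) = 0 := by
  rw [W.cl_act, hcl, map_zero]

namespace Chain

lemma mem {k j : ℕ} {x : C.CH X} (h : Chain A X k j x) : x ∈ C.gr X j := by
  induction h with
  | hom j x hx hcl => exact hx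
  | ker j x hx hcl haj => exact hx
  | step k i j l m x Γ h hΓ hl hm h0 ih => exact C.act_mem hΓ ih hl

lemma cl {k j : ℕ} {x : C.CH X} (h : Chain A X k j x) : W.cl X x = 0 := by
  induction h with
  | hom j x hx hcl => exact hcl
  | ker j x hx hcl haj => exact hcl
  | step k i j l m x Γ h hΓ hl hm h0 ih => exact cl_zero Γ ih

lemma one_le {k j : ℕ} {x : C.CH X} (h : Chain A X k j x) : 1 ≤ k := by
  induction h <;> omega

lemma aj {k j : ℕ} {x : C.CH X} (h : Chain A X k j x) (hk : 2 ≤ k) : A.aj X j x = 0 := by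
  induction h with
  | hom j x hx hcl => omega
  | ker j x hx hcl haj => exact haj
  | step k i j l m x Γ h hΓ hl hm h0 ih =>
    rcases Nat.lt_or_ge k 2 with h2 | h2
    · have h1 := h.one_le
      have hk1 : k = 1 := by omega
      subst hk1
      exact aj_zero' hΓ hl h.mem h.cl hm h0
    · exact aj_zero hΓ hl h.mem h.cl (ih h2)

end Chain

variable (A) in
/-- The subspace generated by the classes of level `k`. -/
noncomputable def S (X : 𝒱.Obj) (k j : ℕ) : Submodule ℚ (C.CH X) :=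
  if k = 0 then C.gr X j else Submodule.span ℚ {x | Chain A X k j x}

lemma S_zero (j : ℕ) : S A X 0 j = C.gr X j := if_pos rfl
lemma S_pos {k : ℕ} (hk : 1 ≤ k) (j : ℕ) :
    S A X k j = Submodule.span ℚ {x | Chain A X k j x} := if_neg (by omega)

lemma Chain.mem_S {k j : ℕ} {x : C.CH X} (h : Chain A X k j x) : x ∈ S A X k j := by
  rw [S_pos h.one_le]
  exact Submodule.subset_span h

lemma S_le (k j : ℕ) : S A X k j ≤ C.gr X j := by
  rcases Nat.eq_zero_or_pos k with rfl | hk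
  · rw [S_zero]
  · rw [S_pos hk, Submodule.span_le]
    exact fun x hx => Chain.mem hx

/-- Induction for the subspaces of level `k ≥ 1`. -/
lemma S_map {n i : ℕ} (hn : 1 ≤ n) (T : C.CH X →ₗ[ℚ] C.CH Y) (U : Submodule ℚ (C.CH Y))
    (h : ∀ x, Chain A X n i x → T x ∈ U) {x : C.CH X} (hx : x ∈ S A X n i) : T x ∈ U := by
  rw [S_pos hn] at hx
  induction hx using Submodule.span_induction with
  | mem x hx => exact h x hx
  | zero => rw [map_zero]; exact Submodule.zero_mem _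
  | add x y _ _ hx hy => rw [map_add]; exact Submodule.add_mem _ hx hy
  | smul c x _ hx => rw [map_smul]; exact Submodule.smul_mem _ _ hx

lemma S_cl {k j : ℕ} (hk : 1 ≤ k) {x : C.CH X} (hx : x ∈ S A X k j) : W.cl X x = 0 := by
  rw [S_pos hk] at hx
  induction hx using Submodule.span_induction with
  | mem x hx => exact Chain.cl hx
  | zero => exact map_zero _
  | add x y _ _ hx hy => rw [map_add, hx, hy, add_zero]
  | smul c x _ hx => rw [W.cl_smul, hx, smul_zero]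

lemma S_aj {k j : ℕ} (hk : 2 ≤ k) {x : C.CH X} (hx : x ∈ S A X k j) : A.aj X j x = 0 := by
  rw [S_pos (by omega)] at hx
  induction hx using Submodule.span_induction with
  | mem x hx => exact Chain.aj hx hk
  | zero => exact map_zero _
  | add x y _ _ hx hy => rw [map_add, hx, hy, add_zero]
  | smul c x _ hx => rw [map_smul, hx, smul_zero]

lemma zero_of_lt {i : ℕ} {x : C.CH X} (hx : x ∈ C.gr X i) (h : X.dim < i) : x = 0 := by
  rw [C.gr_eq_bot X i h] at hx
  exact (Submodule.mem_bot ℚ).1 hx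

/-- The levels are preserved by self-correspondences. -/
lemma act_S {k i j l : ℕ} {Γ : C.CH (X.prod X)} (hΓ : Γ ∈ C.gr (X.prod X) l)
    (hl : i + l = j + X.dim) {x : C.CH X} (hx : x ∈ S A X k i) : C.act Γ x ∈ S A X k j := by
  rcases Nat.eq_zero_or_pos k with rfl | hk
  · rw [S_zero] at hx ⊢
    exact C.act_mem hΓ hx hl
  refine S_map hk (C.act Γ) _ (fun x hx => ?_) hx
  cases hx with
  | hom j x hx hcl => exact (Chain.hom _ _ (C.act_mem hΓ hx hl) (cl_zero Γ hcl)).mem_S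
  | ker j x hx hcl haj =>
    exact (Chain.ker _ _ (C.act_mem hΓ hx hl) (cl_zero Γ hcl) (aj_zero hΓ hl hx hcl haj)).mem_S
  | step k i' j' l' m x Γ' h hΓ' hl' hm h0 =>
    rcases Nat.lt_or_ge X.dim i' with hd | hd
    · rw [zero_of_lt h.mem hd, map_zero, map_zero]
      exact Submodule.zero_mem _
    · rw [← C.act_comp]
      refine (Chain.step k i' j (j + X.dim - i') m x _ h (C.comp_mem hΓ' hΓ (by omega)) (by omega)
        hm (fun b hb => ?_)).mem_S
      rw [W.act_comp _ hΓ, h0 b hb, map_zero]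

/-- A self-correspondence which acts as zero on the cohomology raises the level. -/
lemma act_raise {k i j l m : ℕ} (hk : 1 ≤ k) {Γ : C.CH (X.prod X)}
    (hΓ : Γ ∈ C.gr (X.prod X) l) (hl : i + l = j + X.dim) (hm : m + k = 2 * i)
    (h0 : ∀ b ∈ W.gr X m, W.act Γ b = 0) {x : C.CH X} (hx : x ∈ S A X k i) :
    C.act Γ x ∈ S A X (k + 1) j :=
  S_map hk (C.act Γ) _ (fun x hx => (Chain.step k i j l m x Γ hx hΓ hl hm h0).mem_S) hx

lemma S_anti (n j : ℕ) : S A X (n + 1) j ≤ S A X n j := by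
  intro x hx
  rcases Nat.eq_zero_or_pos n with rfl | hk
  · rw [S_zero]
    exact S_le _ _ hx
  have := S_map (n := n + 1) (by omega) LinearMap.id (S A X n j) (fun x hx => ?_) hx
  · exact this
  · change x ∈ _
    generalize hk' : n + 1 = k' at hx
    cases hx with
    | hom j x hx hcl => omega
    | ker j x hx' hcl haj =>
      have : n = 1 := by omega
      subst this
      exact (Chain.hom _ _ hx' hcl).mem_S
    | step k i' j' l' m x Γ' h hΓ' hl' hm h0 =>
      have := Nat.succ.inj hk'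
      subst this
      exact act_S hΓ' hl' h.mem_S

/-! ### Retracts -/

variable (C) in
/-- `X` is a retract of `N`. -/
structure Retr (X N : 𝒱.Obj) where
  α : C.CH (X.prod N)
  β : C.CH (N.prod X)
  hα : α ∈ C.gr (X.prod N) X.dim
  hβ : β ∈ C.gr (N.prod X) N.dim
  eq : ∀ x, C.act β (C.act α x) = x

/-- Retracts compose. -/
noncomputable def Retr.trans (r : Retr C X Y) (s : Retr C Y Z) : Retr C X Z where
  α := C.comp r.α s.α
  β := C.comp s.β r.β
  hα := C.comp_mem r.hα s.hα rfl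
  hβ := C.comp_mem s.hβ r.hβ rfl
  eq x := by rw [C.act_comp, C.act_comp, s.eq, r.eq]

/-- The levels are preserved by the inclusion of a retract. -/
lemma Retr.chain (r : Retr C X N) {k i : ℕ} {x : C.CH X} (h : Chain A X k i x) :
    C.act r.α x ∈ S A N k i := by
  induction h with
  | hom j x hx hcl => exact (Chain.hom _ _ (C.act_mem r.hα hx rfl) (cl_zero _ hcl)).mem_S
  | ker j x hx hcl haj =>
    exact (Chain.ker _ _ (C.act_mem r.hα hx rfl) (cl_zero _ hcl)
      (aj_zero r.hα rfl hx hcl haj)).mem_S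
  | step k i j l m x Γ h hΓ hl hm h0 ih =>
    rcases Nat.lt_or_ge X.dim i with hd | hd
    · rw [zero_of_lt h.mem hd, map_zero, map_zero]
      exact Submodule.zero_mem _
    rcases Nat.lt_or_ge N.dim i with hd' | hd'
    · have h1 := r.eq x
      rw [zero_of_lt (C.act_mem r.hα h.mem rfl) hd', map_zero] at h1
      rw [← h1, map_zero, map_zero]
      exact Submodule.zero_mem _
    have h1 : C.act r.α (C.act Γ x) =
        C.act (C.comp r.β (C.comp Γ r.α)) (C.act r.α x) := by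
      rw [C.act_comp, C.act_comp, r.eq]
    have h2 : C.comp Γ r.α ∈ C.gr (X.prod N) l := C.comp_mem hΓ r.hα rfl
    rw [h1]
    refine act_raise h.one_le (C.comp_mem (r := j + N.dim - i) r.hβ h2 (by omega)) (by omega) hm
      (fun b hb => ?_) ih
    rw [W.act_comp _ h2, W.act_comp _ r.hα, h0 _ (W.act_mem r.hβ hb rfl), map_zero]

lemma Retr.mem_S (r : Retr C X N) {k i : ℕ} {x : C.CH X} (hx : x ∈ S A X k i) :
    C.act r.α x ∈ S A N k i := by
  rcases Nat.eq_zero_or_pos k with rfl | hk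
  · rw [S_zero] at hx ⊢
    exact C.act_mem r.hα hx rfl
  · exact S_map hk (C.act r.α) _ (fun x hx => r.chain hx) hx

section join

variable (hP : C.Polarized)
include hP

lemma exists_point (X : 𝒱.Obj) : ∃ p ∈ C.gr X X.dim, C.deg X p = 1 := by
  obtain ⟨D, hD, h0⟩ := hP X
  have h1 : ∀ n : ℕ, D ^ n ∈ C.gr X n := by
    intro n
    induction n with
    | zero => rw [pow_zero]; exact C.one_mem X
    | succ n ih => rw [pow_succ]; exact C.mul_mem ih hD
  refine ⟨(C.deg X (D ^ X.dim))⁻¹ • D ^ X.dim, Submodule.smul_mem _ _ (h1 _), ?_⟩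
  rw [map_smul, smul_eq_mul, inv_mul_cancel₀ h0]

lemma nonempty_snd (X Y : 𝒱.Obj) : Nonempty (Retr C Y (X.prod Y)) := by
  obtain ⟨p, hp, hd⟩ := exists_point hP X
  refine ⟨⟨C.cograph (snd X Y), C.span (𝟙 _) (snd X Y) (C.pull (fst X Y) p), C.cograph_mem _,
    C.span_mem _ _ (C.pull_mem _ hp) (by simp only [dim_prod]; omega), fun x => ?_⟩⟩
  rw [C.act_cograph, C.act_span, C.pull_id, C.push_mul, C.push_snd_pull_fst, hd, map_one, one_mul]

omit hP in
/-- The isomorphism which exchanges the factors. -/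
noncomputable def swapRetr (X Y : 𝒱.Obj) : Retr C (X.prod Y) (Y.prod X) where
  α := C.cograph (lift (snd Y X) (fst Y X))
  β := C.cograph (lift (snd X Y) (fst X Y))
  hα := C.cograph_mem _
  hβ := C.cograph_mem _
  eq x := by
    rw [C.act_cograph, C.act_cograph, ← C.pull_comp]
    have h1 : lift (snd X Y) (fst X Y) ≫ lift (snd Y X) (fst Y X) = 𝟙 (X.prod Y) := by
      apply hom_ext_prod <;> simp
    rw [h1, C.pull_id]

/-- Two varieties are retracts of a third one. -/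
lemma exists_join (X Y : 𝒱.Obj) : ∃ N, Nonempty (Retr C X N) ∧ Nonempty (Retr C Y N) := by
  obtain ⟨r⟩ := nonempty_snd hP X Y
  obtain ⟨s⟩ := nonempty_snd hP Y X
  exact ⟨X.prod Y, ⟨s.trans (swapRetr _ _)⟩, ⟨r⟩⟩

end join

/-! ### The filtration -/

variable (A) in
/-- The filtration. -/
noncomputable def Fil (X : 𝒱.Obj) (j k : ℕ) : Submodule ℚ (C.CH X) :=
  Submodule.span ℚ {y | ∃ (V : 𝒱.Obj) (i l : ℕ) (β : C.CH (V.prod X)) (x : C.CH V),
    x ∈ S A V k i ∧ β ∈ C.gr (V.prod X) l ∧ i + l = j + V.dim ∧ y = C.act β x}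

lemma S_le_Fil (k j : ℕ) : S A X k j ≤ Fil A X j k := by
  intro x hx
  refine Submodule.subset_span ⟨X, j, X.dim, C.diagC X, x, hx, C.diagC_mem X, rfl, ?_⟩
  rw [C.act_diagC]

lemma Fil_map {j n : ℕ} (T : C.CH X →ₗ[ℚ] C.CH Y) (U : Submodule ℚ (C.CH Y))
    (h : ∀ (V : 𝒱.Obj) (i l : ℕ) (β : C.CH (V.prod X)) (x : C.CH V), x ∈ S A V n i →
      β ∈ C.gr (V.prod X) l → i + l = j + V.dim → T (C.act β x) ∈ U) {x : C.CH X}
    (hx : x ∈ Fil A X j n) : T x ∈ U := by
  induction hx using Submodule.span_induction with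
  | mem x hx =>
    obtain ⟨V, i, l, β, x, hx, hβ, hl, rfl⟩ := hx
    exact h V i l β x hx hβ hl
  | zero => rw [map_zero]; exact Submodule.zero_mem _
  | add x y _ _ hx hy => rw [map_add]; exact Submodule.add_mem _ hx hy
  | smul c x _ hx => rw [map_smul]; exact Submodule.smul_mem _ _ hx

lemma Fil_le_gr (j n : ℕ) : Fil A X j n ≤ C.gr X j := by
  intro x hx
  refine Fil_map LinearMap.id (C.gr X j) (fun V i l β x hx hβ hl => ?_) hx
  exact C.act_mem hβ (S_le _ _ hx) hl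

lemma Fil_zero (j : ℕ) : Fil A X j 0 = C.gr X j :=
  le_antisymm (Fil_le_gr j 0) (by
    have := S_le_Fil (A := A) (X := X) 0 j
    rwa [S_zero] at this)

lemma Fil_anti (j n : ℕ) : Fil A X j (n + 1) ≤ Fil A X j n := by
  refine Submodule.span_mono ?_
  rintro _ ⟨V, i, l, β, x, hx, hβ, hl, rfl⟩
  exact ⟨V, i, l, β, x, S_anti n i hx, hβ, hl, rfl⟩

lemma Fil_cl {j n : ℕ} (hn : 1 ≤ n) {x : C.CH X} (hx : x ∈ Fil A X j n) : W.cl X x = 0 := by
  induction hx using Submodule.span_induction with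
  | mem x hx =>
    obtain ⟨V, i, l, β, x, hx, hβ, hl, rfl⟩ := hx
    exact cl_zero _ (S_cl hn hx)
  | zero => exact map_zero _
  | add x y _ _ hx hy => rw [map_add, hx, hy, add_zero]
  | smul c x _ hx => rw [W.cl_smul, hx, smul_zero]

lemma Fil_aj {j n : ℕ} (hn : 2 ≤ n) {x : C.CH X} (hx : x ∈ Fil A X j n) : A.aj X j x = 0 := by
  induction hx using Submodule.span_induction with
  | mem x hx =>
    obtain ⟨V, i, l, β, x, hx, hβ, hl, rfl⟩ := hx
    exact aj_zero hβ hl (S_le _ _ hx) (S_cl (by omega) hx) (S_aj hn hx)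
  | zero => exact map_zero _
  | add x y _ _ hx hy => rw [map_add, hx, hy, add_zero]
  | smul c x _ hx => rw [map_smul, hx, smul_zero]

/-- The filtration is preserved by correspondences. -/
lemma Fil_sends {i j l n : ℕ} {Γ : C.CH (X.prod Y)} (hΓ : Γ ∈ C.gr (X.prod Y) l)
    (hl : i + l = j + X.dim) {x : C.CH X} (hx : x ∈ Fil A X i n) : C.act Γ x ∈ Fil A Y j n := by
  refine Fil_map (C.act Γ) _ (fun V i' l' β x hx hβ hl' => ?_) hx
  rcases Nat.lt_or_ge V.dim i' with hd | hd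
  · rw [zero_of_lt (S_le _ _ hx) hd, map_zero, map_zero]
    exact Submodule.zero_mem _
  rw [← C.act_comp]
  exact Submodule.subset_span ⟨V, i', j + V.dim - i', _, x, hx, C.comp_mem hβ hΓ (by omega),
    by omega, rfl⟩

/-- A generator of the filtration, on a larger variety. -/
lemma Retr.gen (rV : Retr C V N) (rX : Retr C X N) {i j l n : ℕ} {β : C.CH (V.prod X)}
    (hβ : β ∈ C.gr (V.prod X) l) (hl : i + l = j + V.dim) {x : C.CH V} (hx : x ∈ S A V n i) :
    C.act rX.α (C.act β x) ∈ S A N n j := by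
  rcases Nat.lt_or_ge N.dim i with hd | hd
  · have h1 := rV.eq x
    rw [zero_of_lt (S_le _ _ (rV.mem_S hx)) hd, map_zero] at h1
    rw [← h1, map_zero, map_zero]
    exact Submodule.zero_mem _
  have h1 : C.act rX.α (C.act β x) =
      C.act (C.comp rV.β (C.comp β rX.α)) (C.act rV.α x) := by
    rw [C.act_comp, C.act_comp, rV.eq]
  rw [h1]
  have h2 : C.comp β rX.α ∈ C.gr (V.prod N) l := C.comp_mem hβ rX.hα rfl
  refine act_S (C.comp_mem (r := j + N.dim - i) rV.hβ h2 ?_) (by omega) (rV.mem_S hx)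
  rcases Nat.lt_or_ge V.dim i with hd' | hd'
  · omega
  · omega

section filP

variable (hP : C.Polarized)
include hP

/-- Correspondences which act as zero on the cohomology raise the filtration. -/
lemma Fil_raises {i j l m n : ℕ} {Γ : C.CH (X.prod Y)} (hΓ : Γ ∈ C.gr (X.prod Y) l)
    (hl : i + l = j + X.dim) (hm : m + n = 2 * i) (h0 : ∀ b ∈ W.gr X m, W.act Γ b = 0)
    {x : C.CH X} (hx : x ∈ Fil A X i n) : C.act Γ x ∈ Fil A Y j (n + 1) := by
  refine Fil_map (C.act Γ) _ (fun V i' l' β x hx hβ hl' => ?_) hx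
  rcases Nat.eq_zero_or_pos n with rfl | hn
  · -- level zero
    refine S_le_Fil _ _ (Chain.hom _ _ (C.act_mem hΓ (C.act_mem hβ (S_le _ _ hx) hl') hl) ?_).mem_S
    rw [W.cl_act, h0 _ ?_]
    have h1 := W.cl_mem (C.act_mem hβ (S_le _ _ hx) hl')
    have h2 : m = 2 * i := by omega
    rw [h2]
    exact h1
  obtain ⟨M, ⟨rV⟩, ⟨rX⟩⟩ := exists_join hP V X
  obtain ⟨N, ⟨rM⟩, ⟨rY⟩⟩ := exists_join hP M Y
  have h1 := Retr.gen (rV.trans rM) (rX.trans rM) hβ hl' hx
  set rX' := rX.trans rM with hrX'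
  have h2 : C.act rY.α (C.act Γ (C.act β x)) =
      C.act (C.comp rX'.β (C.comp Γ rY.α)) (C.act rX'.α (C.act β x)) := by
    rw [C.act_comp, C.act_comp, rX'.eq]
  have h3 : C.comp Γ rY.α ∈ C.gr (X.prod N) l := C.comp_mem hΓ rY.hα rfl
  rcases Nat.lt_or_ge N.dim i with hd | hd
  · have h4 := rX'.eq (C.act β x)
    rw [zero_of_lt (S_le _ _ h1) hd, map_zero] at h4
    rw [← h4, map_zero]
    exact Submodule.zero_mem _
  rcases Nat.lt_or_ge X.dim i with hd' | hd'
  · rw [zero_of_lt (C.act_mem hβ (S_le _ _ hx) hl') hd', map_zero]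
    exact Submodule.zero_mem _
  have h6 : C.comp rX'.β (C.comp Γ rY.α) ∈ C.gr (N.prod N) (j + N.dim - i) :=
    C.comp_mem rX'.hβ h3 (by omega)
  have h4 := act_raise (A := A) (j := j) hn h6 (by omega) hm (fun b hb => by
      rw [W.act_comp _ h3, W.act_comp _ rY.hα, h0 _ (W.act_mem rX'.hβ hb rfl), map_zero]) h1
  rw [← h2] at h4
  have h5 := Submodule.subset_span (R := ℚ) (s := {y | ∃ (V : 𝒱.Obj) (i l : ℕ)
    (β : C.CH (V.prod Y)) (x : C.CH V), x ∈ S A V (n + 1) i ∧ β ∈ C.gr (V.prod Y) l ∧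
      i + l = j + V.dim ∧ y = C.act β x}) ⟨N, j, N.dim, rY.β, _, h4, rY.hβ, rfl, rfl⟩
  rwa [rY.eq] at h5

lemma Fil_bot (h : ∀ (N : 𝒱.Obj) (j : ℕ), S A N (j + 1) j = ⊥) (j : ℕ) :
    Fil A X j (j + 1) = ⊥ := by
  rw [eq_bot_iff]
  intro x hx
  refine Fil_map LinearMap.id ⊥ (fun V i l β x hx hβ hl => ?_) hx
  obtain ⟨N, ⟨rV⟩, ⟨rX⟩⟩ := exists_join hP V X
  have h1 := Retr.gen rV rX hβ hl hx
  rw [h, Submodule.mem_bot] at h1
  have h2 := rX.eq (C.act β x)
  rw [h1, map_zero] at h2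
  exact (Submodule.mem_bot ℚ).2 h2.symm

/-- The filtration is a Bloch–Beilinson filtration. -/
theorem isBB_Fil (h : ∀ (N : 𝒱.Obj) (j : ℕ), S A N (j + 1) j = ⊥) : IsBB A (Fil A) where
  descends X j := ⟨fun n => Fil_anti j n, Fil_zero j, Fil_bot hP h j⟩
  kernels X j := by
    constructor
    · intro x
      constructor
      · exact fun hx => ⟨Fil_anti j 0 hx, Fil_cl le_rfl hx⟩
      · rintro ⟨hx, hcl⟩
        exact S_le_Fil _ _ (Chain.hom _ _ (Fil_le_gr _ _ hx) hcl).mem_S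
    · intro x
      constructor
      · exact fun hx => ⟨Fil_anti j 1 hx, Fil_aj le_rfl hx⟩
      · rintro ⟨hx, haj⟩
        exact S_le_Fil _ _ (Chain.ker _ _ (Fil_le_gr _ _ hx) (Fil_cl le_rfl hx) haj).mem_S
  compat X Y i j l Γ hl hΓ :=
    ⟨fun n x hx => Fil_sends hΓ hl hx, fun n m hm h0 x hx => Fil_raises hP hΓ hl hm h0 hx⟩

end filP

/-! ### The other implications -/

lemma anti_of {U : Submodule ℚ (C.CH X)} {j : ℕ} {F : ℕ → Submodule ℚ (C.CH X)}
    (h : Descends U j F) : Antitone F := antitone_nat_of_succ_le h.antitone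

lemma IsBBOne.chain_mem {F : ℕ → ℕ → Submodule ℚ (C.CH X)} (h : IsBBOne A X F) {n j : ℕ}
    {x : C.CH X} (hx : Chain A X n j x) : x ∈ F j n := by
  induction hx with
  | hom j x hx hcl => exact ((h.kernels j).one x).2 ⟨by rw [(h.descends j).zero]; exact hx, hcl⟩
  | ker j x hx hcl haj =>
    exact ((h.kernels j).two x).2 ⟨((h.kernels j).one x).2
      ⟨by rw [(h.descends j).zero]; exact hx, hcl⟩, haj⟩
  | step k i j l m x Γ hx hΓ hl hm h0 ih =>
    exact (h.compat j i l Γ hl hΓ).raises k m hm h0 x ih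

lemma IsBBOne.chain_zero {F : ℕ → ℕ → Submodule ℚ (C.CH X)} (h : IsBBOne A X F) {j : ℕ}
    {x : C.CH X} (hx : Chain A X (j + 1) j x) : x = 0 := by
  have h1 := h.chain_mem hx
  rw [(h.descends j).bot] at h1
  exact (Submodule.mem_bot ℚ).1 h1

lemma IsBB.one {F : ∀ X : 𝒱.Obj, ℕ → ℕ → Submodule ℚ (C.CH X)} (h : IsBB A F) (X : 𝒱.Obj) :
    IsBBOne A X (F X) :=
  ⟨h.descends X, h.kernels X, fun i j l Γ hl hΓ => h.compat X X i j l Γ hl hΓ⟩

lemma Fil_le {F : ∀ X : 𝒱.Obj, ℕ → ℕ → Submodule ℚ (C.CH X)} (h : IsBB A F) (X : 𝒱.Obj)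
    (j n : ℕ) : Fil A X j n ≤ F X j n := by
  refine Submodule.span_le.2 ?_
  rintro _ ⟨V, i, l, β, x, hx, hβ, hl, rfl⟩
  refine (h.compat V X j i l β hl hβ).sends n x ?_
  rcases Nat.eq_zero_or_pos n with rfl | hn
  · rw [(h.descends V i).zero, ← S_zero (A := A)]
    exact hx
  · exact S_map hn LinearMap.id _ (fun x hx => (IsBB.one h V).chain_mem hx) hx

lemma S_bot_of_dom {𝒮 : 𝒱.Obj → Prop} (h𝒮 : ∀ X : 𝒱.Obj, ∃ Y : 𝒱.Obj, 𝒮 Y ∧ ∃ α ∈ C.gr (X.prod Y) X.dim,
      ∃ β ∈ C.gr (Y.prod X) Y.dim, ∀ x, C.act β (C.act α x) = x)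
    (h : ∀ X, 𝒮 X → ∀ (j : ℕ) (x : C.CH X), Chain A X (j + 1) j x → x = 0) (N : 𝒱.Obj)
    (j : ℕ) : S A N (j + 1) j = ⊥ := by
  obtain ⟨Y, hY, α, hα, β, hβ, hαβ⟩ := h𝒮 N
  let r : Retr C N Y := ⟨α, β, hα, hβ, hαβ⟩
  have h1 : S A Y (j + 1) j = ⊥ := by
    rw [S_pos (by omega), Submodule.span_eq_bot]
    exact fun x hx => h Y hY j x hx
  rw [eq_bot_iff]
  intro x hx
  have h2 := r.mem_S hx
  rw [h1, Submodule.mem_bot] at h2
  have h3 := r.eq x
  rw [h2, map_zero] at h3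
  exact (Submodule.mem_bot ℚ).2 h3.symm

end Pool.Agent.R904.BB
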