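import Pool.Agent.R898.BStmt

/-!
# Bloch–Beilinson filtrations for a part of the varieties, and levels: the definitions used in the
# statements
-/

open CategoryTheory CategoryTheory.Limits AlgebraicGeometry
open Pool.Agent.H914 Pool.Agent.H914.VarClass Pool.Agent.H914.VarClass.Obj
open Pool.Agent.R903 Pool.Agent.R898.B

universe u v w

namespace Pool.Agent.R904.BB

section Alg

variable {A : Type v} [CommRing A] [Algebra ℚ A] {B : Type v} [CommRing B] [Algebra ℚ B]
  {J : ℕ → Type v} [∀ j, AddCommGroup (J j)] [∀ j, Module ℚ (J j)] {K : Type w} [Field K]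
  {H : Type w} [Ring H] [Algebra K H]

/-- The elements `x` of `gr j` of level `n`: those with `c x = 0` have level `1`, those with
`c x = 0` and `a j x = 0` have level `2`, and if `x` in `gr i` has level `n`, and `γ` in `grB l` is
such that `T' γ` is zero on `grH (2i - n)`, then `T γ x`, in `gr j` for `j = i + l - d`, has level
`n + 1`. -/
inductive Level (gr : ℕ → Submodule ℚ A) (c : A →+* H) (a : ∀ j, A →ₗ[ℚ] J j)
    (grH : ℕ → Submodule K H) (grB : ℕ → Submodule ℚ B) (T : B → (A →ₗ[ℚ] A))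
    (T' : B → (H →ₗ[K] H)) (d : ℕ) : ℕ → ℕ → A → Prop
  | one (j : ℕ) (x : A) : x ∈ gr j → c x = 0 → Level gr c a grH grB T T' d 1 j x
  | two (j : ℕ) (x : A) : x ∈ gr j → c x = 0 → a j x = 0 → Level gr c a grH grB T T' d 2 j x
  | step (n i j l m : ℕ) (x : A) (γ : B) : Level gr c a grH grB T T' d n i x → γ ∈ grB l →
      i + l = j + d → m + n = 2 * i → (∀ b ∈ grH m, T' γ b = 0) →
      Level gr c a grH grB T T' d (n + 1) j (T γ x)

/-- `g (f x) = x` -/
def IsSection (f : A →ₗ[ℚ] B) (g : B →ₗ[ℚ] A) : Prop := ∀ x, g (f x) = x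

end Alg

variable {k : Type u} [Field k] {𝒱 : VarClass k} {C : ChowTheory.{u, v} 𝒱}
  {W : WeilTheory.{u, v, w} C}

/-- `F X j n = F^n CH^j(X)`, for the varieties `X` in `𝒮`, satisfies the conditions 1 to 4 of the
problem, for all varieties `X` and `Y` in `𝒮`. -/
def IsBBOn (A : AJMap W) (𝒮 : 𝒱.Obj → Prop) (F : ∀ X : 𝒱.Obj, ℕ → ℕ → Submodule ℚ (C.CH X)) :
    Prop :=
  (∀ X, 𝒮 X → ∀ j, Descends (C.gr X j) j (F X j) ∧ Kernels (F X j) (W.cl X) (A.aj X j)) ∧
    ∀ X Y, 𝒮 X → 𝒮 Y → ∀ (i j l : ℕ), ∀ Γ ∈ C.gr (X.prod Y) l, j + l = i + X.dim →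
      Compat (C.act Γ) (W.act Γ) (W.gr X) j (F X j) (F Y i)

/-- There is a Bloch–Beilinson filtration on the varieties in `𝒮`. -/
def HasBB (A : AJMap W) (𝒮 : 𝒱.Obj → Prop) : Prop := ∃ F, IsBBOn A 𝒮 F

/-- There is a smallest Bloch–Beilinson filtration on the varieties in `𝒮`. -/
def HasSmallestBB (A : AJMap W) (𝒮 : 𝒱.Obj → Prop) : Prop :=
  ∃ F, IsBBOn A 𝒮 F ∧ ∀ G, IsBBOn A 𝒮 G → ∀ X, 𝒮 X → ∀ j n, F X j n ≤ G X j n

/-- For all `j` the classes in `CH^j(X)` of level `j + 1` are zero: the homologically trivial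
classes have level `1`, the classes in the kernel of the Abel–Jacobi map have level `2`, and
`Γ_* x` has level `n + 1` if `x` in `CH^i(X)` has level `n` and the self-correspondence `Γ` of `X`
acts as zero on `H^(2i - n)(X)`. -/
def LevelsVanish (A : AJMap W) (X : 𝒱.Obj) : Prop :=
  ∀ j x, Level (C.gr X) (W.cl X) (A.aj X) (W.gr X) (C.gr (X.prod X)) C.act W.act X.dim (j + 1) j x →
    x = 0

/-- Each variety of the class is dominated by a variety in `𝒮`: there are correspondences of degree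
zero from `X` to `Y` and from `Y` to `X` whose composition acts as the identity on `CH(X)`. -/
def Dominates (C : ChowTheory.{u, v} 𝒱) (𝒮 : 𝒱.Obj → Prop) : Prop :=
  ∀ X : 𝒱.Obj, ∃ Y : 𝒱.Obj, 𝒮 Y ∧ ∃ α ∈ C.gr (X.prod Y) X.dim, ∃ β ∈ C.gr (Y.prod X) Y.dim,
    IsSection (C.act α) (C.act β)

end Pool.Agent.R904.BB
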