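import Pool.Agent.R904.BB.Stmt
import Pool.Agent.R904.BB.Main

/-!
# The theorem in the form in which it is stated
-/

open CategoryTheory CategoryTheory.Limits AlgebraicGeometry
open Pool.Agent.H914 Pool.Agent.H914.VarClass Pool.Agent.H914.VarClass.Obj
open Pool.Agent.R903 Pool.Agent.R898.B

universe u v w

namespace Pool.Agent.R904.BB

variable {k : Type u} [Field k] {𝒱 : VarClass k} {C : ChowTheory.{u, v} 𝒱}
  {W : WeilTheory.{u, v, w} C} {A : AJMap W} {X : 𝒱.Obj}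

lemma level_iff {n j : ℕ} {x : C.CH X} :
    Level (C.gr X) (W.cl X) (A.aj X) (W.gr X) (C.gr (X.prod X)) C.act W.act X.dim n j x ↔
      Chain A X n j x := by
  constructor
  · intro h
    induction h with
    | one j x hx hcl => exact Chain.hom j x hx hcl
    | two j x hx hcl haj => exact Chain.ker j x hx hcl haj
    | step n i j l m x Γ h hΓ hl hm h0 ih => exact Chain.step n i j l m x Γ ih hΓ hl hm h0
  · intro h
    induction h with
    | hom j x hx hcl => exact Level.one j x hx hcl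
    | ker j x hx hcl haj => exact Level.two j x hx hcl haj
    | step n i j l m x Γ h hΓ hl hm h0 ih => exact Level.step n i j l m x Γ ih hΓ hl hm h0

lemma isBBOn_top {F : ∀ X : 𝒱.Obj, ℕ → ℕ → Submodule ℚ (C.CH X)} :
    IsBBOn A (fun _ => True) F ↔ IsBB A F :=
  ⟨fun h => ⟨fun X j => (h.1 X trivial j).1, fun X j => (h.1 X trivial j).2,
    fun X Y i j l Γ hl hΓ => h.2 X Y trivial trivial i j l Γ hΓ hl⟩,
  fun h => ⟨fun X _ j => ⟨h.descends X j, h.kernels X j⟩,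
    fun X Y _ _ i j l Γ hΓ hl => h.compat X Y i j l Γ hl hΓ⟩⟩

lemma isBBOn_one {F : ∀ X : 𝒱.Obj, ℕ → ℕ → Submodule ℚ (C.CH X)}
    (h : IsBBOn A (fun Y => Y = X) F) : IsBBOne A X (F X) :=
  ⟨fun j => (h.1 X rfl j).1, fun j => (h.1 X rfl j).2,
    fun i j l Γ hl hΓ => h.2 X X rfl rfl i j l Γ hΓ hl⟩

theorem main (A : AJMap W) (hP : C.Polarized) (𝒮 : 𝒱.Obj → Prop) (h𝒮 : Dominates C 𝒮) :
    (HasBB A (fun _ => True) ↔ ∀ X, 𝒮 X → HasBB A (fun Y => Y = X)) ∧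
      (HasBB A (fun _ => True) ↔ ∀ X, 𝒮 X → LevelsVanish A X) ∧
      (HasBB A (fun _ => True) → HasSmallestBB A (fun _ => True)) := by
  have h1 : HasBB A (fun _ => True) → ∀ X, 𝒮 X → HasBB A (fun Y => Y = X) := by
    rintro ⟨F, hF⟩ X _
    exact ⟨F, fun Y _ => hF.1 Y trivial, fun Y Z _ _ => hF.2 Y Z trivial trivial⟩
  have h2 : (∀ X, 𝒮 X → HasBB A (fun Y => Y = X)) → ∀ X, 𝒮 X → LevelsVanish A X := by
    intro h X hX j x hx
    obtain ⟨F, hF⟩ := h X hX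
    exact (isBBOn_one hF).chain_zero (level_iff.1 hx)
  have h3 : (∀ X, 𝒮 X → LevelsVanish A X) → IsBB A (Fil A) := fun h =>
    isBB_Fil hP (S_bot_of_dom h𝒮 fun X hX j x hx => h X hX j x (level_iff.2 hx))
  refine ⟨⟨h1, fun h => ⟨_, isBBOn_top.2 (h3 (h2 h))⟩⟩,
    ⟨fun h => h2 (h1 h), fun h => ⟨_, isBBOn_top.2 (h3 h)⟩⟩,
    fun h => ⟨_, isBBOn_top.2 (h3 (h2 (h1 h))), fun G hG X _ j n => ?_⟩⟩
  exact Fil_le (isBBOn_top.1 hG) X j n

end Pool.Agent.R904.BB
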